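import Pool.Agent.Helper88.SE.Goals
import Pool.Agent.Helper85.RR.S1

/-!
# MP_69be96_nt, project SE, packet S1: the mean square of the weight
-/

set_option autoImplicit false

open Finset Filter Topology

open scoped Classical

namespace Pool.Agent.Helper83.SE

open Pool.Agent.Helper88.SE
open Pool.Agent.Helper88.PP (pr Rg om Sf SS uu vv ee LA VV QQ cost nc dd)
open Pool.Agent.Helper88.RR (gg ab nz VM TB)
open Pool.Agent.Helper88.GM (NI XI gB In sp)
open Pool.Agent.Helper88.TU (Su)
open Pool.Agent.Helper85.RR (ab_nonneg mem_TB card_TB prod_TB gg_zero)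

theorem TD_sub (m q M z D : ℕ) (P : Finset ℕ) : TD m q M z D P ⊆ TB m q M z P := by
  intro r hr
  unfold TD at hr
  unfold TB
  rw [Finset.mem_filter, Fintype.mem_piFinset] at hr ⊢
  refine ⟨fun i => ?_, hr.2⟩
  have h1 := hr.1 i
  rw [Finset.mem_insert] at h1 ⊢
  rcases h1 with h1 | h1
  · exact Or.inl h1
  · exact Or.inr (Finset.mem_filter.1 h1).1

theorem mem_TD {m q M z D : ℕ} {P : Finset ℕ} {r : P → ℕ} (hr : r ∈ TD m q M z D P) (i : P) :
    r i = 0 ∨ r i ∈ LD z m (q * m) D := by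
  unfold TD at hr
  rw [Finset.mem_filter, Fintype.mem_piFinset] at hr
  simpa [Finset.mem_insert] using hr.1 i

theorem card_sp {P : Finset ℕ} (r : P → ℕ) : (sp r).card = nz r := by
  unfold sp nz
  exact Finset.card_image_of_injective _ Subtype.val_injective

theorem sp_sub {P : Finset ℕ} (r : P → ℕ) : sp r ⊆ P := by
  intro j hj
  unfold sp at hj
  rw [Finset.mem_image] at hj
  obtain ⟨i, _, hi⟩ := hj
  rw [← hi]
  exact i.2

theorem XI_nonneg (u v Q : ℕ) : 0 ≤ XI u v Q := by
  unfold XI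
  positivity

theorem WD_eq (m q M z y D : ℕ) (P : Finset ℕ) (n : ℕ) : WD m q M z y D P n =
    ∑ r ∈ TD m q M z D P, (∏ i : P, (if r i = 0 then 1 else - ad m q z D (r i))) *
      ∏ i : P, vv y z (r i) (n + (i : ℕ)) := by
  unfold WD
  refine Finset.sum_congr rfl fun r _ => ?_
  rw [Finset.prod_mul_distrib]

/-- Packet `S1`. -/
theorem s1 (hTH : StmtTH) (hGH : StmtGH) (hVB : StmtVB) : StmtS1 := by
  obtain ⟨c, hc, E1, hE1⟩ := hTH
  obtain ⟨E2, hE2⟩ := hGH
  obtain ⟨E3, hE3⟩ := hVB
  obtain ⟨E4, hE4⟩ := exists_nat_ge (Real.log 2 / c)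
  refine ⟨max (max E1 E2) (max E3 (max E4 1)), fun E z x y hE hS u v Q b hI m q hm hqm hV hK
    P D hP hD => ?_⟩
  have hE' : E1 ≤ E ∧ E2 ≤ E ∧ E3 ≤ E ∧ E4 ≤ E ∧ 1 ≤ E := by
    simpa [max_le_iff] using hE
  obtain ⟨hEa, hEb, hEc, hEd, hEe⟩ := hE'
  have hz2 : 2 ≤ z := by
    have h1 : (1 : ℝ) + 1 ≤ z := by
      have h2 : (1 : ℝ) ≤ E := by exact_mod_cast hEe
      have h3 := Real.add_one_le_exp (E : ℝ)
      have h4 := hS.1.1
      linarith
    have h5 : ((2 : ℕ) : ℝ) ≤ z := by
      push_cast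
      linarith
    exact_mod_cast h5
  have hexp : Real.exp (-(c * E)) ≤ 1 / 2 := by
    have h1 : Real.log 2 ≤ c * E := by
      have h2 : Real.log 2 / c ≤ E := hE4.trans (by exact_mod_cast hEd)
      rw [div_le_iff₀ hc] at h2
      linarith
    calc Real.exp (-(c * E)) ≤ Real.exp (-Real.log 2) := Real.exp_le_exp.2 (by linarith)
      _ = 1 / 2 := by rw [Real.exp_neg, Real.exp_log (by norm_num)]; norm_num
  obtain ⟨hV1, hV2, hN1, hN2, had, -⟩ := hE3 E z x y hEc hS m q hm hqm hV P D hD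
  set M := E / 16 with hM
  set T := TD m q M z D P with hT
  have hK2 : (M / m + 1) ^ 2 ≤ E :=
    (Nat.pow_le_pow_right (Nat.succ_pos _) (by norm_num)).trans hK
  have hnz : ∀ r ∈ T, nz r ≤ M / m := fun r hr => card_TB hm hz2 (TD_sub _ _ _ _ _ _ hr)
  -- the density
  have hg : ∀ r ∈ T, 0 < gg y z (nz r) ∧ gg y z (nz r) ≤ gB y z (sp r) ∧
      gB y z (sp r) ≤ 2 * gg y z (nz r) := by
    intro r hr
    have h1 : (sp r).card ^ 2 ≤ E := by
      rw [card_sp]
      exact (Nat.pow_le_pow_left ((hnz r hr).trans (Nat.le_succ _)) 2).trans hK2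
    have h2 := hE2 E z x y hEb hS (sp r) ((sp_sub r).trans hP.1) h1
    rw [card_sp] at h2
    exact ⟨h2.1, h2.2.1, h2.2.2.1⟩
  -- the products
  set pp : (P → ℕ) → ℝ := fun r =>
    ∏ i : P, (if r i = 0 then 1 else ad m q z D (r i) ^ 2 * (Nat.totient (r i) : ℝ)) with hpp
  have hpp0 : ∀ r, 0 ≤ pp r := by
    intro r
    rw [hpp]
    refine Finset.prod_nonneg fun i _ => ?_
    split_ifs
    · exact zero_le_one
    · positivity
  have hwd : ∀ r : P → ℕ, wd m q y z D r = gg y z (nz r) * pp r := fun r => rfl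
  have hED1 : 1 ≤ ED m q M z y D P := by
    unfold ED
    have h0 : (fun _ : P => 0) ∈ T := by
      rw [hT]
      unfold TD
      rw [Finset.mem_filter, Fintype.mem_piFinset]
      exact ⟨fun i => Finset.mem_insert_self _ _, by simp [cost]⟩
    have h1 : nz (fun _ : P => 0) = 0 := by
      unfold nz
      simp
    have h2 : wd m q y z D (fun _ : P => 0) = 1 := by
      unfold wd
      rw [h1, gg_zero]
      simp
    have h3 := Finset.single_le_sum (f := fun r : P → ℕ => wd m q y z D r) (s := T)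
      (fun r hr => by
        show 0 ≤ wd m q y z D r
        rw [hwd]
        exact mul_nonneg (hg r hr).1.le (hpp0 r)) h0
    exact h2.ge.trans h3
  have key := hE1 E z x y hEa hS u v Q b hI m q (M / m + 1) hm hqm hV hK P D hP hD T
    (fun r => ∏ i : P, (if r i = 0 then 1 else - ad m q z D (r i))) ∅ ∅ (by simp) (by simp)
    (by simp)
    (fun r hr i _ _ => mem_TD hr i)
    (fun r hr i hi => absurd hi (Finset.notMem_empty i))
    (fun r hr i hi => absurd hi (Finset.notMem_empty i))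
    (fun r hr => (hnz r hr).trans (Nat.le_succ _))
    (fun r hr => (prod_TB hz2 (TD_sub _ _ _ _ _ _ hr)).trans
      (Nat.pow_le_pow_right (by omega) (by omega)))
    (fun r hr => by
      rw [Finset.abs_prod]
      refine Finset.prod_le_prod (fun i _ => abs_nonneg _) fun i _ => ?_
      rw [if_neg (Finset.notMem_empty i), if_neg (Finset.notMem_empty i)]
      rcases eq_or_ne (r i) 0 with h | h
      · rw [if_pos h, if_pos h, abs_one]
      · rw [if_neg h, if_neg h]
        have h1 := had (r i) ((mem_TD hr i).resolve_left h)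
        rw [abs_neg, abs_of_nonneg h1.1]
        exact h1.2)
  rw [Finset.card_empty, Nat.add_zero, pow_zero, mul_one] at key
  have hmain : ∑ r ∈ T, (∏ i : P, (if r i = 0 then 1 else - ad m q z D (r i))) ^ 2 *
        (gB y z (sp r) * ∏ i, (if r i = 0 then 1 else (Nat.totient (r i) : ℝ)))
      = ∑ r ∈ T, gB y z (sp r) * pp r := by
    refine Finset.sum_congr rfl fun r _ => ?_
    rw [mul_left_comm, ← Finset.prod_pow, ← Finset.prod_mul_distrib]
    congr 1
    refine Finset.prod_congr rfl fun i _ => ?_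
    split_ifs <;> ring
  have key' : |∑ n ∈ NI u v Q b, WD m q M z y D P n ^ 2
      - XI u v Q * ∑ r ∈ T, gB y z (sp r) * pp r| ≤ Real.exp (-(c * E)) * XI u v Q := by
    rw [← hmain]
    simp only [WD_eq]
    exact key
  have hlow : ED m q M z y D P ≤ ∑ r ∈ T, gB y z (sp r) * pp r := by
    unfold ED
    refine Finset.sum_le_sum fun r hr => ?_
    rw [hwd]
    exact mul_le_mul_of_nonneg_right (hg r hr).2.1 (hpp0 r)
  have hup : ∑ r ∈ T, gB y z (sp r) * pp r ≤ 2 * ED m q M z y D P := by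
    unfold ED
    rw [Finset.mul_sum]
    refine Finset.sum_le_sum fun r hr => ?_
    rw [hwd, ← mul_assoc]
    exact mul_le_mul_of_nonneg_right (hg r hr).2.2 (hpp0 r)
  have hX := XI_nonneg u v Q
  have herr : Real.exp (-(c * E)) * XI u v Q ≤ 1 / 2 * (XI u v Q * ED m q M z y D P) := by
    calc Real.exp (-(c * E)) * XI u v Q ≤ 1 / 2 * (XI u v Q * 1) := by
          rw [mul_one]
          exact mul_le_mul_of_nonneg_right hexp hX
      _ ≤ 1 / 2 * (XI u v Q * ED m q M z y D P) := by
          refine mul_le_mul_of_nonneg_left ?_ (by norm_num)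
          exact mul_le_mul_of_nonneg_left hED1 hX
  have hlow' := mul_le_mul_of_nonneg_left hlow hX
  have hup' := mul_le_mul_of_nonneg_left hup hX
  have hk := abs_le.1 key'
  refine ⟨hED1, ?_, ?_⟩
  · linarith [hk.1]
  · have : 0 ≤ XI u v Q * ED m q M z y D P := mul_nonneg hX (by linarith)
    linarith [hk.2]

end Pool.Agent.Helper83.SE
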